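import Mathlib

set_option autoImplicit false

namespace Pool.Agent.Results.MP_742028_co.Zero

open SimpleGraph Finset

variable {V W : Type}

/-- `K` is a copy of `H` in `G` -/
def IsCopy (H : SimpleGraph W) {G : SimpleGraph V} (K : G.Subgraph) : Prop :=
  Nonempty (H ≃g K.coe)

/-- all edges of `K` get the same colour -/
def Mono {r : ℕ} {G : SimpleGraph V} (c : G.edgeSet → Fin r) (K : G.Subgraph) : Prop :=
  ∃ i, ∀ e : G.edgeSet, e.1 ∈ K.edgeSet → c e = i

/-- every `r`-colouring of the edges of `G` has a monochromatic copy of `H` -/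
def Arrow (r : ℕ) (H : SimpleGraph W) (G : SimpleGraph V) : Prop :=
  ∀ c : G.edgeSet → Fin r, ∃ K : G.Subgraph, IsCopy H K ∧ Mono c K

/-- the `r`-multiplicity -/
noncomputable def mult (r : ℕ) (H : SimpleGraph W) (G : SimpleGraph V) : ℕ :=
  ⨅ c : G.edgeSet → Fin r, {K : G.Subgraph | IsCopy H K ∧ Mono c K}.ncard

/-- the Ramsey `r`-robustness -/
noncomputable def rob (r : ℕ) (H : SimpleGraph W) (G : SimpleGraph V) : ℝ :=
  (mult r H G : ℝ) / (mult 1 H G : ℝ)

/-- `r`-Ramsey-minimal graphs -/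
def Minimal (r : ℕ) (H : SimpleGraph W) (G : SimpleGraph V) : Prop :=
  Arrow r H G ∧ ∀ G' : G.Subgraph, G' ≠ ⊤ → ¬ Arrow r H G'.coe

/-- finitely many minimal graphs up to isomorphism -/
def RamseyFinite (r : ℕ) (H : SimpleGraph W) : Prop :=
  ∃ S : Set (Σ n : ℕ, SimpleGraph (Fin n)), S.Finite ∧
    ∀ (n : ℕ) (G : SimpleGraph (Fin n)), Minimal r H G → ∃ p ∈ S, Nonempty (G ≃g p.2)

lemma mult_one (H : SimpleGraph W) (G : SimpleGraph V) :
    mult 1 H G = {K : G.Subgraph | IsCopy H K}.ncard := by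
  have : ∀ c : G.edgeSet → Fin 1, {K : G.Subgraph | IsCopy H K ∧ Mono c K} =
      {K : G.Subgraph | IsCopy H K} := by
    intro c
    ext K
    exact ⟨fun h => h.1, fun h => ⟨h, 0, fun _ _ => Subsingleton.elim _ _⟩⟩
  simp only [mult, this, ciInf_const]

lemma mult_le {r n : ℕ} (hr : 2 ≤ r) {H : SimpleGraph W} {G : SimpleGraph (Fin n)}
    (hG : Minimal r H G) (v : Fin n) :
    mult r H G ≤ {K : G.Subgraph | IsCopy H K ∧ v ∈ K.verts}.ncard := by
  classical
  let G' : G.Subgraph := (⊤ : G.Subgraph).induce {v}ᶜ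
  have hne : G' ≠ ⊤ := by
    intro h
    have : v ∈ G'.verts := by rw [h]; trivial
    exact this rfl
  have := hG.2 G' hne
  unfold Arrow at this
  push Not at this
  obtain ⟨c', hc'⟩ := this
  let f : G'.coe.edgeSet ↪ G.edgeSet := G'.coeCopy.mapEdgeSet
  let c : G.edgeSet → Fin r := Function.extend f c' fun _ => ⟨0, by omega⟩
  refine (ciInf_le (OrderBot.bddBelow _) c).trans
    (Set.ncard_le_ncard (fun K hK => ⟨hK.1, ?_⟩) (Set.toFinite _))
  by_contra hv
  obtain ⟨⟨φ⟩, i, hi⟩ := hK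
  have hφ : ∀ a, (φ a).1 ∈ G'.verts := fun a h => hv (by
    have : (φ a).1 = v := h
    exact this ▸ (φ a).2)
  let ψ : H.Copy G'.coe := ⟨⟨fun a => ⟨(φ a).1, hφ a⟩, fun {a b} h =>
    ⟨hφ a, hφ b, K.adj_sub (φ.map_adj_iff.2 h)⟩⟩, fun a b h =>
      φ.injective (Subtype.ext (congrArg (fun x : G'.verts => x.1) h))⟩
  refine hc' ψ.toSubgraph ⟨ψ.isoToSubgraph⟩ ⟨i, ?_⟩
  rintro ⟨e, he⟩ hk
  have e1 : c (f ⟨e, he⟩) = c' ⟨e, he⟩ := f.injective.extend_apply _ _ _
  rw [← e1]
  apply hi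
  induction e using Sym2.ind with
  | _ x y =>
    obtain ⟨a, b, hab, rfl, rfl⟩ := hk
    exact φ.map_adj_iff.2 hab

lemma rob_le {r n h : ℕ} (hr : 2 ≤ r) {H : SimpleGraph (Fin h)} {G : SimpleGraph (Fin n)}
    (hG : Minimal r H G) : rob r H G * n ≤ h := by
  classical
  set C : Finset G.Subgraph := univ.filter (IsCopy H) with hC
  have e1 : mult 1 H G = C.card := by
    rw [mult_one, ← Set.ncard_coe_finset]; congr 1; ext K; simp [hC]
  have e2 : ∀ v, mult r H G ≤ (C.filter fun K => v ∈ K.verts).card := by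
    intro v
    refine (mult_le hr hG v).trans (le_of_eq ?_)
    rw [← Set.ncard_coe_finset]; congr 1; ext K; simp [hC]
  have e3 : ∑ v : Fin n, (C.filter fun K => v ∈ K.verts).card = C.card * h := by
    simp only [card_filter]
    rw [sum_comm, ← smul_eq_mul, ← sum_const]
    refine sum_congr rfl fun K hK => ?_
    obtain ⟨φ⟩ := (mem_filter.1 hK).2
    rw [← card_filter, ← Fintype.card_subtype, ← Fintype.card_congr φ.toEquiv, Fintype.card_fin]
  have e4 : n * mult r H G ≤ C.card * h := by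
    rw [← e3]
    simpa using card_nsmul_le_sum univ _ _ fun v _ => e2 v
  unfold rob
  rw [e1]
  rcases Nat.eq_zero_or_pos C.card with h0 | h0
  · simp [h0]
  · rw [div_mul_eq_mul_div, div_le_iff₀ (by exact_mod_cast h0)]
    exact_mod_cast (by nlinarith : mult r H G * n ≤ h * C.card)

theorem result (r : ℕ) (hr : 2 ≤ r) (h : ℕ) (H : SimpleGraph (Fin h))
    (hH : ¬ RamseyFinite r H) :
    IsGLB {x : ℝ | ∃ (n : ℕ) (G : SimpleGraph (Fin n)), Minimal r H G ∧ x = rob r H G} 0 := by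
  constructor
  · rintro x ⟨n, G, -, rfl⟩
    unfold rob
    positivity
  · intro ε hε
    by_contra hc
    push Not at hc
    obtain ⟨N, hN⟩ := exists_nat_gt (h / ε)
    apply hH
    refine ⟨⋃ n ∈ {n | n < N}, Set.range (Sigma.mk n),
      (Set.finite_lt_nat N).biUnion fun n _ => Set.finite_range _, fun n G hG => ?_⟩
    refine ⟨⟨n, G⟩, Set.mem_biUnion (show n ∈ {n | n < N} from ?_) ⟨G, rfl⟩, ⟨Iso.refl⟩⟩
    have h1 := hε ⟨n, G, hG, rfl⟩
    have h2 := rob_le hr hG
    rw [div_lt_iff₀ hc] at hN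
    have h3 : ε * n ≤ rob r H G * n := mul_le_mul_of_nonneg_right h1 (by positivity)
    have h4 : (n : ℝ) < N := by nlinarith
    exact_mod_cast h4

end Pool.Agent.Results.MP_742028_co.Zero
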